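import Pool.Agent.MNW.StmtsT

/-! MNW, row NU3: the numerical conditions for genus 3, 11 points. -/

set_option autoImplicit false

namespace Pool.Agent.MNW.H84

open Pool.Agent.MNW

theorem gm3 : gm 3 11 (509 / 50) = 891 / 250 := by
  unfold gm
  norm_num

/-- module NU3 -/
theorem nu3 : Nu3Stmt where
  g_ge := by norm_num
  m_ge := by norm_num
  m_le := by norm_num
  A_nn := by norm_num
  A_le := by norm_num
  u_pos := by norm_num
  k_pos := by norm_num
  psd := by norm_num
  odd := by
    intro a b ha ha7 hb hab hp
    have ha' : a ≤ 7 := ha7
    unfold w1 w0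
    rw [gm3]
    interval_cases a
    · exact absurd ha (by decide)
    · interval_cases b
      · omega
      all_goals norm_num
    · exact absurd ha (by decide)
    · interval_cases b <;> norm_num
    · exact absurd ha (by decide)
    · interval_cases b <;> norm_num
    · exact absurd ha (by decide)
    · have hb' : b < 11 := hp rfl
      interval_cases b <;> norm_num
  even := by
    intro a b ha ha2 ha6 hb y hy hyb
    have ha' : a ≤ 6 := ha6
    have hb' : b ≤ 5 := by omega
    unfold ed w1 w0 qf
    rw [gm3]
    interval_cases a
    · interval_cases b
      · have : y = 0 := le_antisymm (by simpa using hyb) hy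
        subst this
        norm_num
      all_goals
        push_cast at hyb ⊢
        nlinarith [sq_nonneg (y - 7 / 10), sq_nonneg (y - 103 / 100), sq_nonneg (y - 136 / 100),
          sq_nonneg (y - 17 / 10), sq_nonneg (y - 2)]
    · exact absurd ha (by decide)
    · interval_cases b
      all_goals
        push_cast at hyb ⊢
        nlinarith [sq_nonneg y, sq_nonneg (y - 5 / 30), sq_nonneg (y - 1 / 2),
          sq_nonneg (y - 5 / 6), sq_nonneg (y - 7 / 6)]
    · exact absurd ha (by decide)
    · interval_cases b
      all_goals
        push_cast at hyb ⊢
        nlinarith [sq_nonneg y, sq_nonneg (y - 3 / 10)]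
  cen := by
    intro q hq hq11
    unfold qf
    push_cast at hq11 ⊢
    nlinarith [sq_nonneg ((11 - q) - 669 / 100)]

end Pool.Agent.MNW.H84
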